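import Mathlib

/-!
# An algebraic poset that is not weakly atomic

The poset `Q` consists of an infinite ascending chain `base 0 < base 1 < ⋯` and of points
`pt q n` (`q` rational, `n` natural), with `base m ≤ pt q n` iff `m ≤ n`, and
`pt q n < pt q' n'` iff `q < q'` and `n ≤ n'`.  In the algebraic poset `Idl(Q)` the interval from
the ideal `{base m : m}` to the ideal `Q` is order dense.
-/

namespace Pool.Agent.Results.MP_e59eee_co.NotWeaklyAtomic

/-- Every directed subset has a least upper bound. -/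
def IsUpComplete (P : Type) [PartialOrder P] : Prop :=
  ∀ D : Set P, D.Nonempty → DirectedOn (· ≤ ·) D → ∃ s, IsLUB D s

/-- `c` is compact: whenever `c` lies below the join of a directed set `D`, it lies below a member
of `D`. -/
def IsCompactPt {P : Type} [PartialOrder P] (c : P) : Prop :=
  ∀ (D : Set P) (s : P), D.Nonempty → DirectedOn (· ≤ ·) D → IsLUB D s → c ≤ s → ∃ d ∈ D, c ≤ d

/-- `P` is algebraic: up-complete, and every element is the join of a directed set of compact
elements. -/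
def IsAlgebraicPoset (P : Type) [PartialOrder P] : Prop :=
  IsUpComplete P ∧ ∀ x : P, ∃ D : Set P, D.Nonempty ∧ DirectedOn (· ≤ ·) D ∧
    (∀ c ∈ D, IsCompactPt c) ∧ IsLUB D x

/-- `P` is weakly atomic: every nontrivial interval `[x, y]` contains a covering pair. -/
def IsWeaklyAtomic (P : Type) [PartialOrder P] : Prop :=
  ∀ x y : P, x < y → ∃ u v : P, x ≤ u ∧ u ⋖ v ∧ v ≤ y

/-- The underlying set of the poset `Q`. -/
inductive Q : Type
  | base : ℕ → Q
  | pt : ℚ → ℕ → Q

/-- The order of `Q`. -/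
def Q.le : Q → Q → Prop
  | .base m, .base n => m ≤ n
  | .base m, .pt _ n => m ≤ n
  | .pt _ _, .base _ => False
  | .pt q n, .pt q' n' => (q = q' ∧ n = n') ∨ (q < q' ∧ n ≤ n')

instance : PartialOrder Q where
  le := Q.le
  le_refl a := by cases a <;> simp [Q.le]
  le_trans a b c hab hbc := by
    cases a with
    | base m =>
      cases b with
      | base n =>
        cases c with
        | base k => exact le_trans (show m ≤ n from hab) (show n ≤ k from hbc)
        | pt q k => exact le_trans (show m ≤ n from hab) (show n ≤ k from hbc)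
      | pt q n =>
        cases c with
        | base k => exact (hbc : False).elim
        | pt q' k =>
          have h1 : m ≤ n := hab
          rcases (hbc : (q = q' ∧ n = k) ∨ (q < q' ∧ n ≤ k)) with ⟨_, h⟩ | ⟨_, h⟩
          · exact (h ▸ h1 : m ≤ k)
          · exact (h1.trans h : m ≤ k)
    | pt q₀ m =>
      cases b with
      | base n => exact (hab : False).elim
      | pt q n =>
        cases c with
        | base k => exact (hbc : False).elim
        | pt q' k =>
          show (q₀ = q' ∧ m = k) ∨ (q₀ < q' ∧ m ≤ k)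
          rcases (hab : (q₀ = q ∧ m = n) ∨ (q₀ < q ∧ m ≤ n)) with ⟨h1, h2⟩ | ⟨h1, h2⟩ <;>
          rcases (hbc : (q = q' ∧ n = k) ∨ (q < q' ∧ n ≤ k)) with ⟨h3, h4⟩ | ⟨h3, h4⟩
          · left; exact ⟨h1.trans h3, h2.trans h4⟩
          · right; exact ⟨h1 ▸ h3, h2.le.trans h4⟩
          · right; exact ⟨h3 ▸ h1, h2.trans h4.le⟩
          · right; exact ⟨h1.trans h3, h2.trans h4⟩
  le_antisymm a b hab hba := by
    cases a <;> cases b <;> simp only [Q.le] at hab hba
    · rw [le_antisymm hab hba]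
    · rcases hab with ⟨h1, h2⟩ | ⟨h1, h2⟩
      · rw [h1, h2]
      · rcases hba with ⟨h3, h4⟩ | ⟨h3, h4⟩
        · rw [h3, h4]
        · exact absurd (h1.trans h3) (lt_irrefl _)

theorem base_le_base {m n : ℕ} : Q.base m ≤ Q.base n ↔ m ≤ n := Iff.rfl
theorem base_le_pt {m n : ℕ} {q : ℚ} : Q.base m ≤ Q.pt q n ↔ m ≤ n := Iff.rfl
theorem not_pt_le_base {m n : ℕ} {q : ℚ} : ¬ Q.pt q n ≤ Q.base m := fun h => h
theorem pt_le_pt {q q' : ℚ} {n n' : ℕ} :
    Q.pt q n ≤ Q.pt q' n' ↔ (q = q' ∧ n = n') ∨ (q < q' ∧ n ≤ n') := Iff.rfl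

section General

variable {R : Type} [PartialOrder R]

/-- The union of a directed nonempty family of ideals. -/
def unionIdeal (D : Set (Order.Ideal R)) (hne : D.Nonempty) (hdir : DirectedOn (· ≤ ·) D) :
    Order.Ideal R where
  carrier := {a | ∃ I ∈ D, a ∈ I}
  lower' := by
    rintro a b hba ⟨I, hI, ha⟩
    exact ⟨I, hI, I.lower hba ha⟩
  nonempty' := by
    obtain ⟨I, hI⟩ := hne
    obtain ⟨a, ha⟩ := I.nonempty
    exact ⟨a, I, hI, ha⟩
  directed' := by
    rintro a ⟨I, hI, ha⟩ b ⟨J, hJ, hb⟩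
    obtain ⟨K, hK, hIK, hJK⟩ := hdir I hI J hJ
    obtain ⟨c, hc, hac, hbc⟩ := K.directed a (hIK ha) b (hJK hb)
    exact ⟨c, ⟨K, hK, hc⟩, hac, hbc⟩

theorem mem_unionIdeal (D : Set (Order.Ideal R)) (hne : D.Nonempty)
    (hdir : DirectedOn (· ≤ ·) D) (a : R) : a ∈ unionIdeal D hne hdir ↔ ∃ I ∈ D, a ∈ I := Iff.rfl

theorem isLUB_unionIdeal (D : Set (Order.Ideal R)) (hne : D.Nonempty)
    (hdir : DirectedOn (· ≤ ·) D) : IsLUB D (unionIdeal D hne hdir) := by
  constructor
  · intro I hI a ha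
    exact ⟨I, hI, ha⟩
  · rintro J hJ a ⟨I, hI, ha⟩
    exact hJ hI ha

theorem isCompactPt_principal (a : R) : IsCompactPt (Order.Ideal.principal a) := by
  intro D s hne hdir hs has
  have hs' : s = unionIdeal D hne hdir := hs.unique (isLUB_unionIdeal D hne hdir)
  have ha : a ∈ s := has (Order.Ideal.mem_principal.2 le_rfl)
  rw [hs'] at ha
  obtain ⟨I, hI, haI⟩ := ha
  exact ⟨I, hI, Order.Ideal.principal_le_iff.2 haI⟩

theorem isAlgebraicPoset_ideal : IsAlgebraicPoset (Order.Ideal R) := by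
  refine ⟨fun D hne hdir => ⟨_, isLUB_unionIdeal D hne hdir⟩, fun I => ?_⟩
  refine ⟨{J | ∃ a ∈ I, J = Order.Ideal.principal a}, ?_, ?_, ?_, ?_⟩
  · obtain ⟨a, ha⟩ := I.nonempty
    exact ⟨_, a, ha, rfl⟩
  · rintro _ ⟨a, ha, rfl⟩ _ ⟨b, hb, rfl⟩
    obtain ⟨c, hc, hac, hbc⟩ := I.directed a ha b hb
    refine ⟨_, ⟨c, hc, rfl⟩, ?_, ?_⟩
    · exact Order.Ideal.principal_le_iff.2 (Order.Ideal.mem_principal.2 hac)
    · exact Order.Ideal.principal_le_iff.2 (Order.Ideal.mem_principal.2 hbc)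
  · rintro _ ⟨a, _, rfl⟩
    exact isCompactPt_principal a
  · constructor
    · rintro _ ⟨a, ha, rfl⟩
      exact Order.Ideal.principal_le_iff.2 ha
    · intro J hJ a ha
      exact Order.Ideal.principal_le_iff.1 (hJ ⟨a, ha, rfl⟩)

end General

/-- The ideal of all `base m`. -/
def bottomIdeal : Order.Ideal Q where
  carrier := {a | ∃ m, a = Q.base m}
  lower' := by
    rintro _ b hb ⟨m, rfl⟩
    cases b with
    | base n => exact ⟨n, rfl⟩
    | pt q n => exact absurd hb not_pt_le_base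
  nonempty' := ⟨Q.base 0, 0, rfl⟩
  directed' := by
    rintro _ ⟨m, rfl⟩ _ ⟨n, rfl⟩
    exact ⟨Q.base (max m n), ⟨_, rfl⟩, base_le_base.2 (le_max_left _ _),
      base_le_base.2 (le_max_right _ _)⟩

/-- The ideal of all `base m` and all `pt q n` with `q < r`. -/
def cutIdeal (r : ℚ) : Order.Ideal Q where
  carrier := {a | (∃ m, a = Q.base m) ∨ ∃ q n, q < r ∧ a = Q.pt q n}
  lower' := by
    rintro a b hb (⟨m, rfl⟩ | ⟨q, n, hq, rfl⟩)
    · cases b with
      | base n => exact Or.inl ⟨n, rfl⟩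
      | pt q n => exact absurd hb not_pt_le_base
    · cases b with
      | base n => exact Or.inl ⟨n, rfl⟩
      | pt q' n' =>
        right
        refine ⟨q', n', ?_, rfl⟩
        rcases pt_le_pt.1 hb with ⟨h, _⟩ | ⟨h, _⟩
        · rw [h]; exact hq
        · exact h.trans hq
  nonempty' := ⟨Q.base 0, Or.inl ⟨0, rfl⟩⟩
  directed' := by
    have key : ∀ a ∈ {a : Q | (∃ m, a = Q.base m) ∨ ∃ q n, q < r ∧ a = Q.pt q n},
        ∃ (q : ℚ) (n : ℕ), q < r ∧ ∀ q' n', q < q' → n ≤ n' → a ≤ Q.pt q' n' := by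
      rintro a (⟨m, rfl⟩ | ⟨q, n, hq, rfl⟩)
      · exact ⟨r - 1, m, by linarith, fun q' n' _ hn => base_le_pt.2 hn⟩
      · exact ⟨q, n, hq, fun q' n' h hn => pt_le_pt.2 (Or.inr ⟨h, hn⟩)⟩
    intro a ha b hb
    obtain ⟨q₁, n₁, h₁, H₁⟩ := key a ha
    obtain ⟨q₂, n₂, h₂, H₂⟩ := key b hb
    obtain ⟨t, ht₁, ht₂⟩ := exists_between (max_lt h₁ h₂)
    exact ⟨Q.pt t (max n₁ n₂), Or.inr ⟨t, _, ht₂, rfl⟩,
      H₁ _ _ ((le_max_left _ _).trans_lt ht₁) (le_max_left _ _),
      H₂ _ _ ((le_max_right _ _).trans_lt ht₁) (le_max_right _ _)⟩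

/-- The improper ideal `Q`. -/
def topIdeal : Order.Ideal Q where
  carrier := Set.univ
  lower' := fun _ _ _ _ => trivial
  nonempty' := ⟨Q.base 0, trivial⟩
  directed' := by
    have key : ∀ a : Q, ∃ (q : ℚ) (n : ℕ), ∀ q' n', q < q' → n ≤ n' → a ≤ Q.pt q' n' := by
      rintro (m | ⟨q, n⟩)
      · exact ⟨0, m, fun q' n' _ hn => base_le_pt.2 hn⟩
      · exact ⟨q, n, fun q' n' h hn => pt_le_pt.2 (Or.inr ⟨h, hn⟩)⟩
    intro a _ b _
    obtain ⟨q₁, n₁, H₁⟩ := key a
    obtain ⟨q₂, n₂, H₂⟩ := key b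
    exact ⟨Q.pt (max q₁ q₂ + 1) (max n₁ n₂), trivial,
      H₁ _ _ (by linarith [le_max_left q₁ q₂]) (le_max_left _ _),
      H₂ _ _ (by linarith [le_max_right q₁ q₂]) (le_max_right _ _)⟩

/-- Between any two ideals `u < v` containing all `base m` there is a third one. -/
theorem exists_between_ideals (u v : Order.Ideal Q) (hu : bottomIdeal ≤ u) (huv : u < v) :
    ∃ w : Order.Ideal Q, u < w ∧ w < v := by
  obtain ⟨z, hzv, hzu⟩ := Set.exists_of_ssubset (show (u : Set Q) ⊂ v from huv)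
  have hbase : ∀ m, Q.base m ∈ u := fun m => hu ⟨m, rfl⟩
  cases z with
  | base m => exact absurd (hbase m) hzu
  | pt q n =>
    -- `v` contains a point with a larger first coordinate
    obtain ⟨d, hd, hd1, hd2⟩ := v.directed (Q.pt q n) hzv (Q.base (n + 1))
      (huv.le (hbase (n + 1)))
    cases d with
    | base m => exact absurd hd1 not_pt_le_base
    | pt q' n' =>
      have hn' : n + 1 ≤ n' := base_le_pt.1 hd2
      have hq' : q < q' := by
        rcases pt_le_pt.1 hd1 with ⟨_, h⟩ | ⟨h, _⟩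
        · omega
        · exact h
      obtain ⟨r, hqr, hrq'⟩ := exists_between hq'
      -- membership in `v` of all points with first coordinate below `q'`
      have hv : ∀ p k, p < q' → Q.pt p k ∈ v := by
        intro p k hp
        obtain ⟨e, he, he1, he2⟩ := v.directed (Q.pt q' n') hd (Q.base k) (huv.le (hbase k))
        cases e with
        | base m => exact absurd he1 not_pt_le_base
        | pt q'' n'' =>
          refine v.lower ?_ he
          have hk : k ≤ n'' := base_le_pt.1 he2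
          refine pt_le_pt.2 (Or.inr ⟨?_, hk⟩)
          rcases pt_le_pt.1 he1 with ⟨h, _⟩ | ⟨h, _⟩
          · exact h ▸ hp
          · exact hp.trans h
      -- points of `u` have first coordinate at most `q`
      have hu' : ∀ p k, Q.pt p k ∈ u → p ≤ q := by
        intro p k hpk
        by_contra hlt
        push Not at hlt
        obtain ⟨e, he, he1, he2⟩ := u.directed (Q.pt p k) hpk (Q.base n) (hbase n)
        cases e with
        | base m => exact absurd he1 not_pt_le_base
        | pt q'' n'' =>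
          refine hzu (u.lower ?_ he)
          have hk : n ≤ n'' := base_le_pt.1 he2
          refine pt_le_pt.2 (Or.inr ⟨?_, hk⟩)
          rcases pt_le_pt.1 he1 with ⟨h, _⟩ | ⟨h, _⟩
          · exact h ▸ hlt
          · exact hlt.trans h
      refine ⟨cutIdeal r, ?_, ?_⟩
      · refine lt_of_le_of_ne ?_ ?_
        · intro a ha
          cases a with
          | base m => exact Or.inl ⟨m, rfl⟩
          | pt p k => exact Or.inr ⟨p, k, (hu' p k ha).trans_lt hqr, rfl⟩
        · intro h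
          exact hzu (h ▸ (Or.inr ⟨q, n, hqr, rfl⟩ : Q.pt q n ∈ cutIdeal r))
      · refine lt_of_le_of_ne ?_ ?_
        · rintro a (⟨m, rfl⟩ | ⟨p, k, hp, rfl⟩)
          · exact huv.le (hbase m)
          · exact hv p k (hp.trans hrq')
        · intro h
          have : Q.pt q' n' ∈ cutIdeal r := h ▸ hd
          rcases this with ⟨m, hm⟩ | ⟨p, k, hp, hpk⟩
          · cases hm
          · cases hpk
            exact absurd (hp.trans hrq') (lt_irrefl _)

/-- There is an algebraic poset that is not weakly atomic. -/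
theorem result : ∃ (P : Type) (_ : PartialOrder P), IsAlgebraicPoset P ∧ ¬ IsWeaklyAtomic P := by
  refine ⟨Order.Ideal Q, inferInstance, isAlgebraicPoset_ideal, fun h => ?_⟩
  have hlt : bottomIdeal < topIdeal := by
    refine lt_of_le_of_ne (fun a _ => trivial) ?_
    intro h
    have : Q.pt 0 0 ∈ bottomIdeal := h ▸ (trivial : Q.pt 0 0 ∈ topIdeal)
    obtain ⟨m, hm⟩ := this
    cases hm
  obtain ⟨u, v, hu, huv, _⟩ := h _ _ hlt
  obtain ⟨w, h1, h2⟩ := exists_between_ideals u v hu huv.lt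
  exact huv.2 h1 h2

end Pool.Agent.Results.MP_e59eee_co.NotWeaklyAtomic
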